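import Pool.Agent.J4H87.K5.Stm

set_option autoImplicit false

/-! Project K5 (helper87), job EV. -/

namespace Pool.Agent.J4H94.K5

open Finset Filter Topology
open scoped Classical
open Pool.Agent.J4H87.K5

noncomputable section

lemma hist_eq {n : ℕ} {ω ω' : Om n} {r i : ℕ} (h : ∀ j : Fin (n.choose 2), j.1 < r → ω j = ω' j) (hi : i ≤ r) :
    hist ω i = hist ω' i := by
  unfold hist
  apply List.ext_getElem
  · simp
  · intro k h1 h2
    simp only [List.getElem_take, List.getElem_ofFn]
    unfold off
    rw [h]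
    simp only [List.length_take, List.length_ofFn, lt_inf_iff] at h1
    simp only
    omega

lemma bt_eq {n : ℕ} (A : List (Sym2 (Fin n)) → Prop) {ω ω' : Om n} {r : ℕ}
    (h : ∀ j : Fin (n.choose 2), j.1 < r → ω j = ω' j) : bt A ω r = bt A ω' r := by
  unfold bt
  have e : ((univ : Finset (Fin (n.choose 2))).filter (fun j => j.1 < r ∧ A (hist ω (j.1 + 1)))) =
      (univ : Finset (Fin (n.choose 2))).filter (fun j => j.1 < r ∧ A (hist ω' (j.1 + 1))) := by
    apply filter_congr
    intro j _
    constructor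
    · rintro ⟨h1, h2⟩
      exact ⟨h1, by rwa [← hist_eq h (show j.1 + 1 ≤ r by omega)]⟩
    · rintro ⟨h1, h2⟩
      exact ⟨h1, by rwa [hist_eq h (show j.1 + 1 ≤ r by omega)]⟩
  rw [e]
  apply image_congr
  intro j hj
  simp only [coe_filter, mem_univ, true_and, Set.mem_setOf_eq] at hj
  unfold off
  rw [h j hj.1]

theorem t_EV : S_UB → S_EV := by
  intro hUB n t A Gd F G N ht hP hM hG hF hGd hN
  have hm0 : 0 < G.card := card_pos.2 hG
  let g : Fin G.card → Sym2 (Fin 5) := fun i => (G.equivFin.symm i).1
  have hgi : Function.Injective g := fun i j hij => G.equivFin.symm.injective (Subtype.ext hij)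
  have hgm : ∀ i, g i ∈ G := fun i => (G.equivFin.symm i).2
  let H : ℕ → Om n → Finset (Fin 5 → Fin n) := fun r ω =>
    univ.filter (fun x => Gd r ω ∧ ∀ p ∈ F, p.map x ∈ bt A ω r)
  have h1 := hUB n t 5 G.card g H N hm0 ht
    (by
      intro r ω ω' h
      simp only [H]
      apply filter_congr
      intro x _
      rw [hP r ω ω' h, bt_eq A h])
    (by
      intro r hr
      refine le_trans (le_of_eq ?_) (hN r hr)
      congr 1
      funext ω
      simp only [H]
      split_ifs with hg
      · simp only [hg, true_and]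
      · simp only [hg, false_and, filter_false, card_empty, Nat.cast_zero])
  refine le_trans ?_ h1
  unfold pr ex
  apply div_le_div_of_nonneg_right _ (Nat.cast_nonneg _)
  rw [card_filter]
  push_cast
  apply sum_le_sum
  intro ω _
  split_ifs with h
  · obtain ⟨hgt, x, τ, hE, hlt⟩ := h
    have hc : 0 < cnt t g H ω := by
      unfold cnt
      apply card_pos.2
      have hs : Function.Injective (fun i => τ (g i)) := by
        intro i j hij
        simp only at hij
        apply hgi
        have h2 := (hE.2 (g i) (hGd _ (hgm i))).2.1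
        have h3 := (hE.2 (g j) (hGd _ (hgm j))).2.1
        rw [hij, h3] at h2
        exact (Sym2.map.injective hE.1 h2).symm
      haveI : Nonempty (Fin G.card) := ⟨⟨0, hm0⟩⟩
      obtain ⟨i₀, hi₀⟩ := Finite.exists_min (fun i => τ (g i))
      refine ⟨(x, fun i => τ (g i)), ?_⟩
      simp only [mem_filter, mem_univ, true_and]
      refine ⟨hs, fun i => ⟨(hE.2 _ (hGd _ (hgm i))).1, (hE.2 _ (hGd _ (hgm i))).2.1⟩, i₀, hi₀, ?_⟩
      simp only [H, mem_filter, mem_univ, true_and]
      refine ⟨hM _ _ ω (hE.2 _ (hGd _ (hgm i₀))).1.le hgt, ?_⟩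
      intro p hp
      unfold bt
      rw [mem_image]
      refine ⟨τ p, ?_, (hE.2 p (hF p hp)).2.1⟩
      simp only [mem_filter, mem_univ, true_and]
      exact ⟨hlt p hp _ (hgm i₀), (hE.2 p (hF p hp)).2.2⟩
    exact_mod_cast hc
  · exact Nat.cast_nonneg _

end

end Pool.Agent.J4H94.K5
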