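import Pool.Agent.J4H94.K5.Ev

set_option autoImplicit false

/-! Project K5 (helper87), job TRI. -/

namespace Pool.Agent.J4H94.K5

open Finset Filter Topology
open scoped Classical
open Pool.Agent.J4H87.K5

noncomputable section

/-- the time at which a pair is offered -/
def ti {n : ℕ} (ω : Om n) (e : Sym2 (Fin n)) : ℕ := if h : ¬ e.IsDiag then (ω.symm ⟨e, h⟩).1 else 0

lemma ex_time {n : ℕ} {ω : Om n} {e : Sym2 (Fin n)} (h : ¬ e.IsDiag) :
    ∃ j : Fin (n.choose 2), off ω j = e ∧ j.1 = ti ω e := by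
  refine ⟨ω.symm ⟨e, h⟩, ?_, ?_⟩
  · unfold off
    rw [Equiv.apply_symm_apply]
  · unfold ti
    rw [dif_pos h]

lemma mem_bt {n : ℕ} {A : List (Sym2 (Fin n)) → Prop} {ω : Om n} {i : ℕ} {e : Sym2 (Fin n)} :
    e ∈ bt A ω i ↔ ¬ e.IsDiag ∧ ti ω e < i ∧ A (hist ω (ti ω e + 1)) := by
  unfold bt
  simp only [mem_image, mem_filter, mem_univ, true_and]
  constructor
  · rintro ⟨j, ⟨h1, h2⟩, rfl⟩
    have hd : ¬ (off ω j).IsDiag := (ω j).2
    have : ti ω (off ω j) = j.1 := by
      unfold ti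
      rw [dif_pos hd]
      have : (⟨off ω j, hd⟩ : Pr n) = ω j := rfl
      rw [this, Equiv.symm_apply_apply]
    rw [this]
    exact ⟨hd, h1, h2⟩
  · rintro ⟨hd, h1, h2⟩
    obtain ⟨j, h3, h4⟩ := ex_time (ω := ω) hd
    rw [← h4] at h1 h2
    exact ⟨j, ⟨h1, h2⟩, h3⟩

lemma ti_inj {n : ℕ} {ω : Om n} {e e' : Sym2 (Fin n)} (h : ¬ e.IsDiag) (h' : ¬ e'.IsDiag) (hh : ti ω e = ti ω e') :
    e = e' := by
  unfold ti at hh
  rw [dif_pos h, dif_pos h'] at hh
  have := ω.symm.injective (Fin.ext hh)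
  exact congrArg Subtype.val this

/-- ordered pairs -/
lemma pairs_le {n : ℕ} (B : Finset (Sym2 (Fin n))) :
    ((univ : Finset (Fin n × Fin n)).filter (fun p => s(p.1, p.2) ∈ B)).card ≤ 2 * B.card := by
  have h := Finset.card_le_mul_card_image (f := fun p : Fin n × Fin n => s(p.1, p.2))
    ((univ : Finset (Fin n × Fin n)).filter (fun p => s(p.1, p.2) ∈ B)) 2 (by
      intro a ha
      rw [mem_image] at ha
      obtain ⟨⟨u, v⟩, -, rfl⟩ := ha
      refine le_trans (card_le_card (t := {(u, v), (v, u)}) ?_) card_le_two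
      intro p hp
      rw [mem_filter] at hp
      have h2 := hp.2
      simp only [Sym2.eq_iff] at h2
      rw [mem_insert, mem_singleton]
      rcases h2 with ⟨h3, h4⟩ | ⟨h3, h4⟩
      · left; exact Prod.ext h3 h4
      · right; exact Prod.ext h3 h4)
  refine h.trans (Nat.mul_le_mul_left 2 (card_le_card ?_))
  intro e he
  rw [mem_image] at he
  obtain ⟨p, hp, rfl⟩ := he
  rw [mem_filter] at hp
  exact hp.2

lemma nat_ineq (c : ℕ) : c ≤ 1 + (c * c - c) := by
  rcases c with _ | _ | c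
  · simp
  · simp
  · have h1 : (c + 2) * (c + 2) = (c + 2) * (c + 1) + (c + 2) := by ring
    have h2 : c + 2 ≤ (c + 2) * (c + 1) := Nat.le_mul_of_pos_right _ (by omega)
    have h3 : c + 1 + 1 = c + 2 := rfl
    rw [h3, h1]
    omega

/-- triangles with the last edge `02` -/
def TT {n : ℕ} (A : List (Sym2 (Fin n)) → Prop) (ω : Om n) (r : ℕ) : Finset (Fin 3 → Fin n) :=
  univ.filter (fun x => s(x 0, x 1) ∈ bt A ω r ∧ s(x 1, x 2) ∈ bt A ω r ∧ s(x 0, x 2) ∈ bt A ω r ∧
    ti ω s(x 0, x 1) < ti ω s(x 0, x 2) ∧ ti ω s(x 1, x 2) < ti ω s(x 0, x 2))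

/-- four-cycles closed by `03`, then the diagonal `02` -/
def ZZ {n : ℕ} (A : List (Sym2 (Fin n)) → Prop) (ω : Om n) (r : ℕ) : Finset (Fin 4 → Fin n) :=
  univ.filter (fun z => s(z 0, z 1) ∈ bt A ω r ∧ s(z 1, z 2) ∈ bt A ω r ∧ s(z 2, z 3) ∈ bt A ω r ∧
    s(z 0, z 3) ∈ bt A ω r ∧ s(z 0, z 2) ∈ bt A ω r ∧ ti ω s(z 0, z 1) < ti ω s(z 0, z 3) ∧
    ti ω s(z 1, z 2) < ti ω s(z 0, z 3) ∧ ti ω s(z 2, z 3) < ti ω s(z 0, z 3) ∧ ti ω s(z 0, z 3) < ti ω s(z 0, z 2))

/-- pairs of triangles with the same last edge -/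
def WW {n : ℕ} (A : List (Sym2 (Fin n)) → Prop) (ω : Om n) (r : ℕ) : Finset ((Fin 3 → Fin n) × (Fin 3 → Fin n)) :=
  (TT A ω r ×ˢ TT A ω r).filter (fun p => p.1 0 = p.2 0 ∧ p.1 2 = p.2 2 ∧ p.1 1 ≠ p.2 1)

lemma ne_of_mem {n : ℕ} {A : List (Sym2 (Fin n)) → Prop} {ω : Om n} {r : ℕ} {u v : Fin n} (h : s(u, v) ∈ bt A ω r) :
    u ≠ v := by
  have := (mem_bt.1 h).1
  rwa [Sym2.mk_isDiag_iff] at this

lemma T3_le {n : ℕ} (A : List (Sym2 (Fin n)) → Prop) (ω : Om n) (r : ℕ) : T3 (bt A ω r) ≤ 3 * (TT A ω r).card := by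
  unfold T3
  have hsub : ((univ : Finset (Fin 3 → Fin n)).filter (fun x => s(x 0, x 1) ∈ bt A ω r ∧ s(x 1, x 2) ∈ bt A ω r ∧
      s(x 0, x 2) ∈ bt A ω r)) ⊆ TT A ω r ∪ ((TT A ω r).image (fun y => ![y 0, y 2, y 1]) ∪
        (TT A ω r).image (fun y => ![y 1, y 0, y 2])) := by
    intro x hx
    simp only [mem_filter, mem_univ, true_and] at hx
    obtain ⟨h01, h12, h02⟩ := hx
    have n01 := ne_of_mem h01
    have n12 := ne_of_mem h12
    have n02 := ne_of_mem h02
    have a1 : ti ω s(x 0, x 1) ≠ ti ω s(x 0, x 2) := by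
      intro h
      have := ti_inj (mem_bt.1 h01).1 (mem_bt.1 h02).1 h
      rw [Sym2.eq_iff] at this
      rcases this with h | h
      · exact n12 h.2
      · exact n02 h.1
    have a2 : ti ω s(x 1, x 2) ≠ ti ω s(x 0, x 2) := by
      intro h
      have := ti_inj (mem_bt.1 h12).1 (mem_bt.1 h02).1 h
      rw [Sym2.eq_iff] at this
      rcases this with h | h
      · exact n01 h.1.symm
      · exact n12 h.1
    have a3 : ti ω s(x 0, x 1) ≠ ti ω s(x 1, x 2) := by
      intro h
      have := ti_inj (mem_bt.1 h01).1 (mem_bt.1 h12).1 h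
      rw [Sym2.eq_iff] at this
      rcases this with h | h
      · exact n01 h.1
      · exact n02 h.1
    have h10 : s(x 1, x 0) ∈ bt A ω r := by rwa [Sym2.eq_swap]
    have h21 : s(x 2, x 1) ∈ bt A ω r := by rwa [Sym2.eq_swap]
    have h20 : s(x 2, x 0) ∈ bt A ω r := by rwa [Sym2.eq_swap]
    have e10 : ti ω s(x 1, x 0) = ti ω s(x 0, x 1) := by rw [Sym2.eq_swap]
    have e21 : ti ω s(x 2, x 1) = ti ω s(x 1, x 2) := by rw [Sym2.eq_swap]
    have e20 : ti ω s(x 2, x 0) = ti ω s(x 0, x 2) := by rw [Sym2.eq_swap]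
    rw [mem_union, mem_union]
    by_cases c1 : ti ω s(x 0, x 1) < ti ω s(x 0, x 2) ∧ ti ω s(x 1, x 2) < ti ω s(x 0, x 2)
    · left
      unfold TT
      simp only [mem_filter, mem_univ, true_and]
      exact ⟨h01, h12, h02, c1.1, c1.2⟩
    · right
      by_cases c2 : ti ω s(x 0, x 2) < ti ω s(x 0, x 1) ∧ ti ω s(x 1, x 2) < ti ω s(x 0, x 1)
      · left
        rw [mem_image]
        refine ⟨![x 0, x 2, x 1], ?_, ?_⟩
        · unfold TT
          simp only [mem_filter, mem_univ, true_and, Matrix.cons_val_zero, Matrix.cons_val_one, Matrix.cons_val]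
          exact ⟨h02, h21, h01, c2.1, by rw [e21]; exact c2.2⟩
        · funext i
          fin_cases i <;> rfl
      · right
        rw [mem_image]
        refine ⟨![x 1, x 0, x 2], ?_, ?_⟩
        · unfold TT
          simp only [mem_filter, mem_univ, true_and, Matrix.cons_val_zero, Matrix.cons_val_one, Matrix.cons_val]
          refine ⟨h10, h02, h12, ?_, ?_⟩
          · rw [e10]; omega
          · omega
        · funext i
          fin_cases i <;> rfl
  refine (card_le_card hsub).trans ((card_union_le _ _).trans ?_)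
  have h1 := card_union_le ((TT A ω r).image (fun y => ![y 0, y 2, y 1])) ((TT A ω r).image (fun y => ![y 1, y 0, y 2]))
  have h2 : ((TT A ω r).image (fun y => ![y 0, y 2, y 1])).card ≤ (TT A ω r).card := card_image_le
  have h3 : ((TT A ω r).image (fun y => ![y 1, y 0, y 2])).card ≤ (TT A ω r).card := card_image_le
  omega

lemma TT_le {n : ℕ} (A : List (Sym2 (Fin n)) → Prop) (ω : Om n) (r : ℕ) :
    (TT A ω r).card ≤ 2 * (bt A ω r).card + (WW A ω r).card := by
  set f : (Fin 3 → Fin n) → Fin n × Fin n := fun x => (x 0, x 2) with hf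
  set P := (univ : Finset (Fin n × Fin n)).filter (fun p => s(p.1, p.2) ∈ bt A ω r) with hP
  have h1 : (TT A ω r).card = ∑ p ∈ P, ((TT A ω r).filter (fun x => f x = p)).card := by
    apply card_eq_sum_card_fiberwise
    intro x hx
    have hx' : x ∈ TT A ω r := hx
    unfold TT at hx'
    rw [mem_filter] at hx'
    have : f x ∈ P := by
      rw [hP, mem_filter]
      exact ⟨mem_univ _, hx'.2.2.2.1⟩
    exact this
  have h2 : (WW A ω r).card = ∑ p ∈ P, ((WW A ω r).filter (fun q => f q.1 = p)).card := by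
    apply card_eq_sum_card_fiberwise
    intro q hq
    have hq' : q ∈ WW A ω r := hq
    unfold WW at hq'
    rw [mem_filter, mem_product] at hq'
    have hx' := hq'.1.1
    unfold TT at hx'
    rw [mem_filter] at hx'
    have : f q.1 ∈ P := by
      rw [hP, mem_filter]
      exact ⟨mem_univ _, hx'.2.2.2.1⟩
    exact this
  have h3 : ∀ p ∈ P, ((TT A ω r).filter (fun x => f x = p)).card ≤
      1 + ((WW A ω r).filter (fun q => f q.1 = p)).card := by
    intro p _
    refine (nat_ineq _).trans (Nat.add_le_add_left ?_ 1)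
    rw [← offDiag_card]
    apply card_le_card
    intro q hq
    rw [mem_offDiag, mem_filter, mem_filter] at hq
    obtain ⟨⟨a1, a2⟩, ⟨a3, a4⟩, a5⟩ := hq
    rw [mem_filter]
    refine ⟨?_, a2⟩
    unfold WW
    rw [mem_filter, mem_product]
    have e : f q.1 = f q.2 := by rw [a2, a4]
    simp only [hf, Prod.mk.injEq] at e
    refine ⟨⟨a1, a3⟩, e.1, e.2, ?_⟩
    intro h
    apply a5
    funext i
    fin_cases i
    · exact e.1
    · exact h
    · exact e.2
  calc (TT A ω r).card = ∑ p ∈ P, ((TT A ω r).filter (fun x => f x = p)).card := h1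
    _ ≤ ∑ p ∈ P, (1 + ((WW A ω r).filter (fun q => f q.1 = p)).card) := sum_le_sum h3
    _ = P.card + (WW A ω r).card := by rw [sum_add_distrib, ← h2, sum_const, smul_eq_mul, mul_one]
    _ ≤ _ := Nat.add_le_add_right (pairs_le _) _

lemma WW_le {n : ℕ} (A : List (Sym2 (Fin n)) → Prop) (ω : Om n) (r : ℕ) :
    (WW A ω r).card ≤ 4 * (ZZ A ω r).card := by
  have hsub : WW A ω r ⊆ ((ZZ A ω r).image (fun z => (![z 0, z 3, z 2], ![z 0, z 1, z 2])) ∪
      (ZZ A ω r).image (fun z => (![z 2, z 3, z 0], ![z 2, z 1, z 0]))) ∪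
      ((ZZ A ω r).image (fun z => (![z 0, z 1, z 2], ![z 0, z 3, z 2])) ∪
      (ZZ A ω r).image (fun z => (![z 2, z 1, z 0], ![z 2, z 3, z 0]))) := by
    rintro ⟨x, y⟩ hq
    unfold WW at hq
    rw [mem_filter, mem_product] at hq
    obtain ⟨⟨hx, hy⟩, e0, e2, h1⟩ := hq
    simp only at hx hy e0 e2 h1
    unfold TT at hx hy
    simp only [mem_filter, mem_univ, true_and] at hx hy
    obtain ⟨x01, x12, x02, lx1, lx2⟩ := hx
    obtain ⟨y01, y12, y02, ly1, ly2⟩ := hy
    rw [← e0] at y01 y02 ly1 ly2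
    rw [← e2] at y12 y02 ly1 ly2
    have n1 := ne_of_mem x01
    have n2 := ne_of_mem x12
    have n3 := ne_of_mem x02
    have n4 := ne_of_mem y01
    have n5 := ne_of_mem y12
    -- the swapped ones
    have x10 : s(x 1, x 0) ∈ bt A ω r := by rwa [Sym2.eq_swap]
    have x21 : s(x 2, x 1) ∈ bt A ω r := by rwa [Sym2.eq_swap]
    have x20 : s(x 2, x 0) ∈ bt A ω r := by rwa [Sym2.eq_swap]
    have y10 : s(y 1, x 0) ∈ bt A ω r := by rwa [Sym2.eq_swap]
    have y21 : s(x 2, y 1) ∈ bt A ω r := by rwa [Sym2.eq_swap]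
    have ex10 : ti ω s(x 1, x 0) = ti ω s(x 0, x 1) := by rw [Sym2.eq_swap]
    have ex21 : ti ω s(x 2, x 1) = ti ω s(x 1, x 2) := by rw [Sym2.eq_swap]
    have ex20 : ti ω s(x 2, x 0) = ti ω s(x 0, x 2) := by rw [Sym2.eq_swap]
    have ey10 : ti ω s(y 1, x 0) = ti ω s(x 0, y 1) := by rw [Sym2.eq_swap]
    have ey21 : ti ω s(x 2, y 1) = ti ω s(y 1, x 2) := by rw [Sym2.eq_swap]
    -- the four times are different
    have d1 : ti ω s(x 0, x 1) ≠ ti ω s(x 1, x 2) := by
      intro h
      have := ti_inj (mem_bt.1 x01).1 (mem_bt.1 x12).1 h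
      rw [Sym2.eq_iff] at this
      rcases this with h | h
      · exact n1 h.1
      · exact n3 h.1
    have d2 : ti ω s(x 0, x 1) ≠ ti ω s(x 0, y 1) := by
      intro h
      have := ti_inj (mem_bt.1 x01).1 (mem_bt.1 y01).1 h
      rw [Sym2.eq_iff] at this
      rcases this with h | h
      · exact h1 h.2
      · exact n4 h.1
    have d3 : ti ω s(x 0, x 1) ≠ ti ω s(y 1, x 2) := by
      intro h
      have := ti_inj (mem_bt.1 x01).1 (mem_bt.1 y12).1 h
      rw [Sym2.eq_iff] at this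
      rcases this with h | h
      · exact n4 h.1
      · exact n3 h.1
    have d4 : ti ω s(x 1, x 2) ≠ ti ω s(x 0, y 1) := by
      intro h
      have := ti_inj (mem_bt.1 x12).1 (mem_bt.1 y01).1 h
      rw [Sym2.eq_iff] at this
      rcases this with h | h
      · exact n1 h.1.symm
      · exact h1 h.1
    have d5 : ti ω s(x 1, x 2) ≠ ti ω s(y 1, x 2) := by
      intro h
      have := ti_inj (mem_bt.1 x12).1 (mem_bt.1 y12).1 h
      rw [Sym2.eq_iff] at this
      rcases this with h | h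
      · exact h1 h.1
      · exact n2 h.1
    have d6 : ti ω s(x 0, y 1) ≠ ti ω s(y 1, x 2) := by
      intro h
      have := ti_inj (mem_bt.1 y01).1 (mem_bt.1 y12).1 h
      rw [Sym2.eq_iff] at this
      rcases this with h | h
      · exact n4 h.1
      · exact n3 h.1
    rw [mem_union, mem_union, mem_union]
    by_cases c1 : ti ω s(x 1, x 2) < ti ω s(x 0, x 1) ∧ ti ω s(x 0, y 1) < ti ω s(x 0, x 1) ∧
        ti ω s(y 1, x 2) < ti ω s(x 0, x 1)
    · left; left
      rw [mem_image]
      refine ⟨![x 0, y 1, x 2, x 1], ?_, ?_⟩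
      · unfold ZZ
        simp only [mem_filter, mem_univ, true_and, Matrix.cons_val_zero, Matrix.cons_val_one, Matrix.cons_val]
        refine ⟨y01, y12, x21, x01, x02, c1.2.1, c1.2.2, ?_, lx1⟩
        rw [ex21]; exact c1.1
      · refine Prod.ext ?_ ?_
        · funext i
          fin_cases i <;> rfl
        · funext i
          fin_cases i
          · exact e0
          · rfl
          · exact e2
    by_cases c2 : ti ω s(x 0, x 1) < ti ω s(x 1, x 2) ∧ ti ω s(x 0, y 1) < ti ω s(x 1, x 2) ∧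
        ti ω s(y 1, x 2) < ti ω s(x 1, x 2)
    · left; right
      rw [mem_image]
      refine ⟨![x 2, y 1, x 0, x 1], ?_, ?_⟩
      · unfold ZZ
        simp only [mem_filter, mem_univ, true_and, Matrix.cons_val_zero, Matrix.cons_val_one, Matrix.cons_val]
        refine ⟨y21, y10, x01, x21, x20, ?_, ?_, ?_, ?_⟩
        · rw [ey21, ex21]; exact c2.2.2
        · rw [ey10, ex21]; exact c2.2.1
        · rw [ex21]; exact c2.1
        · rw [ex21, ex20]; exact lx2
      · refine Prod.ext ?_ ?_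
        · funext i
          fin_cases i <;> rfl
        · funext i
          fin_cases i
          · exact e0
          · rfl
          · exact e2
    right
    by_cases c3 : ti ω s(x 0, x 1) < ti ω s(x 0, y 1) ∧ ti ω s(x 1, x 2) < ti ω s(x 0, y 1) ∧
        ti ω s(y 1, x 2) < ti ω s(x 0, y 1)
    · left
      rw [mem_image]
      refine ⟨![x 0, x 1, x 2, y 1], ?_, ?_⟩
      · unfold ZZ
        simp only [mem_filter, mem_univ, true_and, Matrix.cons_val_zero, Matrix.cons_val_one, Matrix.cons_val]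
        refine ⟨x01, x12, y21, y01, x02, c3.1, c3.2.1, ?_, ly1⟩
        rw [ey21]; exact c3.2.2
      · refine Prod.ext ?_ ?_
        · funext i
          fin_cases i <;> rfl
        · funext i
          fin_cases i
          · exact e0
          · rfl
          · exact e2
    · right
      have c4 : ti ω s(x 0, x 1) < ti ω s(y 1, x 2) ∧ ti ω s(x 1, x 2) < ti ω s(y 1, x 2) ∧
        ti ω s(x 0, y 1) < ti ω s(y 1, x 2) := by omega
      rw [mem_image]
      refine ⟨![x 2, x 1, x 0, y 1], ?_, ?_⟩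
      · unfold ZZ
        simp only [mem_filter, mem_univ, true_and, Matrix.cons_val_zero, Matrix.cons_val_one, Matrix.cons_val]
        refine ⟨x21, x10, y01, y21, x20, ?_, ?_, ?_, ?_⟩
        · rw [ex21, ey21]; exact c4.2.1
        · rw [ex10, ey21]; exact c4.1
        · rw [ey21]; exact c4.2.2
        · rw [ey21, ex20]; exact ly2
      · refine Prod.ext ?_ ?_
        · funext i
          fin_cases i <;> rfl
        · funext i
          fin_cases i
          · exact e0
          · rfl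
          · exact e2
  refine (card_le_card hsub).trans ((card_union_le _ _).trans ?_)
  refine (Nat.add_le_add (card_union_le _ _) (card_union_le _ _)).trans ?_
  have h1 : ((ZZ A ω r).image (fun z => (![z 0, z 3, z 2], ![z 0, z 1, z 2]))).card ≤ (ZZ A ω r).card := card_image_le
  have h2 : ((ZZ A ω r).image (fun z => (![z 2, z 3, z 0], ![z 2, z 1, z 0]))).card ≤ (ZZ A ω r).card := card_image_le
  have h3 : ((ZZ A ω r).image (fun z => (![z 0, z 1, z 2], ![z 0, z 3, z 2]))).card ≤ (ZZ A ω r).card := card_image_le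
  have h4 : ((ZZ A ω r).image (fun z => (![z 2, z 1, z 0], ![z 2, z 3, z 0]))).card ≤ (ZZ A ω r).card := card_image_le
  omega

theorem t_TRI : S_UB → S_TRI := by
  intro hUB n t b A Gd K ht hS hP hM hK hK0 r hr
  let g : Fin 2 → Sym2 (Fin 4) := ![s(0, 3), s(0, 2)]
  let H : ℕ → Om n → Finset (Fin 4 → Fin n) := fun i ω =>
    univ.filter (fun x => Gd i ω ∧ s(x 0, x 1) ∈ bt A ω i ∧ s(x 1, x 2) ∈ bt A ω i ∧ s(x 2, x 3) ∈ bt A ω i)
  have h1 := hUB n t 4 2 g H K (by norm_num) ht
    (by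
      intro i ω ω' h
      simp only [H]
      apply filter_congr
      intro x _
      rw [hP i ω ω' h, bt_eq A h])
    (by
      intro i hi
      unfold ex
      apply div_le_of_le_mul₀ (Nat.cast_nonneg _) hK0
      refine (sum_le_sum (g := fun _ => K) ?_).trans (le_of_eq ?_)
      · intro ω _
        by_cases hg : Gd i ω
        · refine le_trans ?_ (hK i hi ω hg)
          unfold P4
          simp only [H, hg, true_and]
          exact le_refl _
        · simp only [H, hg, false_and, filter_false, card_empty, Nat.cast_zero]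
          exact hK0
      · rw [sum_const, nsmul_eq_mul, card_univ, mul_comm])
  have hZ : ∀ ω : Om n, Gd r ω → (ZZ A ω r).card ≤ cnt t g H ω := by
    intro ω hg
    unfold cnt
    refine le_trans (card_le_card ?_) (card_image_le (f := Prod.fst))
    intro z hz
    unfold ZZ at hz
    simp only [mem_filter, mem_univ, true_and] at hz
    obtain ⟨z01, z12, z23, z03, z02, l1, l2, l3, l4⟩ := hz
    obtain ⟨j3, hj3, hj3'⟩ := ex_time (ω := ω) (mem_bt.1 z03).1
    obtain ⟨j2, hj2, hj2'⟩ := ex_time (ω := ω) (mem_bt.1 z02).1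
    have hr3 : j3.1 < r := by rw [hj3']; exact (mem_bt.1 z03).2.1
    have hr2 : j2.1 < r := by rw [hj2']; exact (mem_bt.1 z02).2.1
    have h32 : j3.1 < j2.1 := by rw [hj3', hj2']; exact l4
    rw [mem_image]
    refine ⟨(z, ![j3, j2]), ?_, rfl⟩
    simp only [mem_filter, mem_univ, true_and]
    refine ⟨?_, ?_, 0, ?_, ?_⟩
    · intro a c hac
      fin_cases a <;> fin_cases c
      · rfl
      · exfalso
        simp only [Fin.zero_eta, Fin.mk_one, Matrix.cons_val_zero, Matrix.cons_val_one] at hac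
        rw [hac] at h32
        exact lt_irrefl _ h32
      · exfalso
        simp only [Fin.zero_eta, Fin.mk_one, Matrix.cons_val_zero, Matrix.cons_val_one] at hac
        rw [hac] at h32
        exact lt_irrefl _ h32
      · rfl
    · intro i
      fin_cases i
      · simp only [Fin.zero_eta, Matrix.cons_val_zero, g]
        refine ⟨by omega, ?_⟩
        rw [hj3]
        rfl
      · simp only [Fin.mk_one, Matrix.cons_val_one, Matrix.cons_val_fin_one, g]
        refine ⟨by omega, ?_⟩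
        rw [hj2]
        rfl
    · intro i
      fin_cases i
      · exact le_refl _
      · exact h32.le
    · simp only [H, mem_filter, mem_univ, true_and, Matrix.cons_val_zero]
      refine ⟨hM _ _ ω hr3.le hg, ?_, ?_, ?_⟩
      · exact mem_bt.2 ⟨(mem_bt.1 z01).1, by rw [hj3']; exact l1, (mem_bt.1 z01).2.2⟩
      · exact mem_bt.2 ⟨(mem_bt.1 z12).1, by rw [hj3']; exact l2, (mem_bt.1 z12).2.2⟩
      · exact mem_bt.2 ⟨(mem_bt.1 z23).1, by rw [hj3']; exact l3, (mem_bt.1 z23).2.2⟩
  have hpt : ∀ ω : Om n, (if Gd r ω then (T3 (bt A ω r) : ℝ) else 0) ≤ 6 * b + 12 * (cnt t g H ω : ℝ) := by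
    intro ω
    split_ifs with hg
    · have a1 := T3_le A ω r
      have a2 := TT_le A ω r
      have a3 := WW_le A ω r
      have a4 := hZ ω hg
      have a5 : (bt A ω r).card ≤ b := by
        refine (card_le_card ?_).trans (hS ω)
        intro e he
        rw [mem_bt] at he ⊢
        exact ⟨he.1, by omega, he.2.2⟩
      have a6 : T3 (bt A ω r) ≤ 6 * b + 12 * cnt t g H ω := by omega
      exact_mod_cast a6
    · positivity
  have h2 : ex (fun ω => if Gd r ω then (T3 (bt A ω r) : ℝ) else 0) ≤ 6 * b + 12 * ex (fun ω => (cnt t g H ω : ℝ)) := by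
    unfold ex
    have h3 : ∑ ω : Om n, (if Gd r ω then (T3 (bt A ω r) : ℝ) else 0) ≤
        ∑ ω : Om n, (6 * (b : ℝ) + 12 * (cnt t g H ω : ℝ)) := sum_le_sum fun ω _ => hpt ω
    rw [sum_add_distrib, sum_const, ← mul_sum, nsmul_eq_mul, card_univ] at h3
    rcases Nat.eq_zero_or_pos (Fintype.card (Om n)) with h0 | h0
    · rw [h0]
      simp only [Nat.cast_zero, div_zero, mul_zero, add_zero]
      positivity
    · have h0' : (0 : ℝ) < (Fintype.card (Om n) : ℝ) := by exact_mod_cast h0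
      rw [div_le_iff₀ h0', add_mul, mul_assoc 12, div_mul_cancel₀ _ h0'.ne']
      linarith
  have h4 : 0 ≤ K * rho n t ^ 2 := by positivity
  linarith

end

end Pool.Agent.J4H94.K5
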